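import Mathlib

/-!
# The Kakeya problem for families of tubes with few directions in every ball: definitions

`V` is the Euclidean space of dimension `n = d + 1`.
-/

set_option autoImplicit false

namespace Pool.FDS

open MeasureTheory ENNReal
open scoped RealInnerProductSpace

variable {V : Type} [NormedAddCommGroup V] [InnerProductSpace ℝ V]

/-- The tube of length `1`, radius `δ`, centre `c` and axis direction `e`. -/
def tube (δ : ℝ) (c e : V) : Set V :=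
  {x | |⟪x - c, e⟫| ≤ 1 / 2 ∧ ‖(x - c) - ⟪x - c, e⟫ • e‖ ≤ δ}

/-- The number of tubes which contain the point `x`. -/
noncomputable def mult {N : ℕ} (δ : ℝ) (c e : Fin N → V) (x : V) : ℝ :=
  ∑ i, (tube δ (c i) (e i)).indicator (fun _ => (1 : ℝ)) x

/-- The directions are unit vectors and `δ`-separated. -/
def Dirs {N : ℕ} (δ : ℝ) (e : Fin N → V) : Prop :=
  (∀ i, ‖e i‖ = 1) ∧ ∀ i j, i ≠ j → δ ≤ ‖e i - e j‖

/-- At most `M (r / δ) ^ 3` directions of the family are at distance at most `r` from one of them,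
for all `r ≥ δ`. -/
def Spread {N : ℕ} (δ M : ℝ) (e : Fin N → V) : Prop :=
  ∀ i, ∀ r : ℝ, δ ≤ r → (({j | ‖e j - e i‖ ≤ r} : Set (Fin N)).ncard : ℝ) ≤ M * (r / δ) ^ 3

/-- Off a part `N ^ (-θ)` of the mass at most `C N ^ s` tubes meet at a point, and the inequality
of Q1 holds for all real `q ≥ q₀`. -/
def Off [MeasureSpace V] (d : ℕ) {N : ℕ} (θ s q₀ C δ : ℝ) (c e : Fin N → V) : Prop :=
  ∃ G : Set V, MeasurableSet G ∧
    ∑ i, volume (tube δ (c i) (e i) \ G) ≤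
      ENNReal.ofReal ((N : ℝ) ^ (-θ)) * ∑ i, volume (tube δ (c i) (e i)) ∧
    (∀ x ∈ G, mult δ c e x ≤ C * (N : ℝ) ^ s) ∧
    ∀ q : ℝ, q₀ ≤ q → eLpNorm (G.indicator (mult δ c e)) (ENNReal.ofReal q) volume ≤
      ENNReal.ofReal (C * (δ ^ ((d : ℝ) / q) * (N : ℝ) ^ (1 - 1 / (q * d))))

/-- A measurable set which contains at least the part `lam` of each tube has volume at least
`C⁻¹ lam ^ P N ^ s δ ^ d`. -/
def Dense [MeasureSpace V] (d : ℕ) {N : ℕ} (P s C δ : ℝ) (c e : Fin N → V) : Prop :=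
  ∀ lam : ℝ, 0 < lam → lam ≤ 1 → ∀ X : Set V, MeasurableSet X →
    (∀ i, ENNReal.ofReal lam * volume (tube δ (c i) (e i)) ≤ volume (X ∩ tube δ (c i) (e i))) →
    ENNReal.ofReal (C⁻¹ * lam ^ P * ((N : ℝ) ^ s * δ ^ d)) ≤ volume X

/-- `K` contains a unit segment in the direction `e`. -/
def HasSegment (K : Set V) (e : V) : Prop :=
  ∃ x : V, ∀ t : ℝ, 0 ≤ t → t ≤ 1 → x + t • e ∈ K

/-- The statement about families of tubes. -/
def Tubes (V : Type) [NormedAddCommGroup V] [InnerProductSpace ℝ V] [MeasureSpace V] (d : ℕ) :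
    Prop :=
  ∀ A σ ε q₀ : ℝ, 0 ≤ σ → σ ≤ 1 - 3 / (d : ℝ) → 0 < ε → ε < 1 - σ →
    1 + 1 / ((d : ℝ) * (1 - σ)) < q₀ →
    ∃ θ P C : ℝ, 0 < θ ∧ 0 ≤ P ∧ 0 < C ∧ ∀ δ : ℝ, 0 < δ → δ < 1 →
      ∀ (N : ℕ) (c e : Fin N → V), Dirs δ e →
      (σ = 1 - 3 / (d : ℝ) ∨ Spread δ (A * (N : ℝ) ^ σ) e) →
      Off d θ (σ + ε) q₀ C δ c e ∧
      ENNReal.ofReal (C⁻¹ * ((N : ℝ) ^ (1 - σ - ε) * δ ^ d)) ≤ volume (⋃ i, tube δ (c i) (e i)) ∧
      Dense d P (1 - σ - ε) C δ c e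

/-- The statement about sets which contain a unit segment in every direction of a set of
directions. -/
def Sets (V : Type) [NormedAddCommGroup V] [InnerProductSpace ℝ V] (d : ℕ) : Prop :=
  (∀ Ω K : Set V, Ω.Nonempty → (∀ e ∈ Ω, ‖e‖ = 1 ∧ HasSegment K e) →
    min (dimH Ω) 3 + 1 ≤ dimH K) ∧
  (∀ K : Set V, (∀ e, ‖e‖ = 1 → HasSegment K e) →
    4 ≤ dimH K ∧ (d = 3 → dimH K = 4) ∧ (d = 5 → ENNReal.ofReal (32 / 7) ≤ dimH K) ∧
      (d = 6 → ENNReal.ofReal (49 / 10) ≤ dimH K)) ∧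
  (d = 4 → ∃ c : ℝ, 0 < c ∧ ∀ K : Set V, (∀ e, ‖e‖ = 1 → HasSegment K e) →
    ENNReal.ofReal (4 + c) ≤ dimH K)

end Pool.FDS
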