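import Mathlib
import Pool.Agent.H56.KPM.Thm
import Pool.Agent.H94.GP.SForm
import Pool.Agent.H9.KRN.Top
import Pool.Agent.H9.KRN.Five
import Pool.Agent.H13.FDS.Defs

/-!
# The Kakeya problem for families of tubes with few directions in every ball: the theorem
-/

set_option autoImplicit false

open MeasureTheory ENNReal
open scoped RealInnerProductSpace

namespace Pool.FDS

theorem tubes_thm (d : ℕ) (hd : 3 ≤ d) : Tubes (EuclideanSpace ℝ (Fin (d + 1))) d := by
  have hKP : Pool.KA.KP 3 := Pool.PB.kp3_thm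
  have hd0 : 0 < d := by omega
  have hdens : Pool.GP.DensM d 3 := Pool.GP.densM_of_KP hd0 hKP
  intro A σ ε q₀ hσ hσ1 hε hε1 hq₀
  obtain ⟨θ, P, C, hθ, hP, hC, h⟩ := Pool.GP.tubesS (k := 3) (by omega) (by norm_num) hd hdens A
    hε hσ (by exact_mod_cast hσ1) hε1 hq₀
  refine ⟨θ, P, C, hθ, hP, hC, ?_⟩
  intro δ hδ hδ1 N c e hdir hM
  refine h δ hδ hδ1 N c e hdir.1 hdir.2 ?_
  rcases hM with hM | hM
  · left
    exact_mod_cast hM
  · right
    intro i _ r hr
    refine le_trans (le_of_eq ?_) (hM i r hr)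
    congr 2
    ext j
    simp

theorem sets_thm (d : ℕ) (hd : 3 ≤ d) : Sets (EuclideanSpace ℝ (Fin (d + 1))) d := by
  have hKP : Pool.KA.KP 3 := Pool.PB.kp3_thm
  have hd0 : 0 < d := by omega
  have hdens : Pool.GP.DensM d 3 := Pool.GP.densM_of_KP hd0 hKP
  refine ⟨?_, ?_, ?_⟩
  · intro Ω K hne hK
    have h1 := Pool.GP.le_dimH_of_densM hdens Ω (fun e he => (hK e he).1) hne K
      (fun e he => (hK e he).2)
    exact_mod_cast h1
  · intro K hK
    have h1 : 4 ≤ dimH K := by
      have h2 := Pool.Agent.H55.HDim.le_dimH_of_dens (d := d) (b := ((3 : ℕ) : ℝ) / d)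
        (by positivity) (Pool.GP.dens_of_densM hd0 hd (by norm_num) hdens) K hK
      refine le_trans (le_of_eq ?_) h2
      have hd' : (0 : ℝ) < d := by exact_mod_cast hd0
      rw [div_mul_cancel₀ _ hd'.ne']
      norm_num
    refine ⟨h1, fun hd3 => le_antisymm ?_ h1, ?_, ?_⟩
    rotate_left
    · intro h5
      subst h5
      exact Pool.KRN.dim_six K fun e he => hK e he
    · intro h6
      subst h6
      exact Pool.KRN.dim_seven K fun e he => hK e he
    subst hd3
    have h1 : dimH K ≤ dimH (Set.univ : Set (EuclideanSpace ℝ (Fin (3 + 1)))) :=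
      dimH_mono (Set.subset_univ K)
    rw [Real.dimH_univ_eq_finrank, finrank_euclideanSpace_fin] at h1
    exact_mod_cast h1
  · intro h4
    subst h4
    obtain ⟨c, hc, h⟩ := Pool.KRN.dim_five
    exact ⟨c, hc, fun K hK => h K fun e he => hK e he⟩

end Pool.FDS
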